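import Pool.Agent.TH464.PO.PolyExact
import Pool.Agent.TH464.PO.QuadAP

set_option autoImplicit false

/-!
# Almost prime values of admissible quadratic polynomials: the density in all windows

Let `f(m) = a m ^ 2 + b m + c` be admissible, `θ > 0` and `ε > 0`. There are `K` and `r0` such that for
every `r ≥ r0` and all large `X` the following holds. Call `m` good if `f(m)` has at most `2 r` prime
factors, all larger than `X ^ (1 / r)`, and let `V` be the product of `1 - ρ(p) / p` over the primes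
`p ≤ X ^ (1 / r)`. Then in EVERY interval `(X, X + Y]` with `X ^ θ ≤ Y ≤ X`, for all but at most `ε Y`
of its integers `n`, ALL windows `(u, v]` around `n` inside `(X, X + Y]` of length at least `K / V` contain
`(1 ± ε) (v - u) V` good integers.
-/

namespace Pool.Agent.Results.MP_a1177c_nt.ExactWindows

open Finset Filter

/-- `a m ^ 2 + b m + c` has at most `2 r` prime factors (with multiplicity), all larger than
`X ^ (1 / r)`. -/
def AlmostPrimeValue (a b c : ℤ) (r X m : ℕ) : Prop :=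
  (a * (m : ℤ) ^ 2 + b * m + c).natAbs.primeFactorsList.length ≤ 2 * r ∧
    ∀ p : ℕ, p.Prime → (p : ℤ) ∣ a * (m : ℤ) ^ 2 + b * m + c → (X : ℝ) ^ (1 / (r : ℝ)) < (p : ℝ)

open Classical in
/-- The number of the good `m` in `(u, v]`. -/
noncomputable def N (a b c : ℤ) (r X u v : ℕ) : ℕ :=
  ((Finset.Ioc u v).filter (fun m => AlmostPrimeValue a b c r X m)).card

open Classical in
/-- The sieve density: the product of `1 - ρ(p) / p` over the primes `p ≤ X ^ (1 / r)`, where `ρ(p)` is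
the number of the `m` mod `p` with `p ∣ a m ^ 2 + b m + c`. -/
noncomputable def V (a b c : ℤ) (r X : ℕ) : ℝ :=
  ∏ p ∈ (Finset.range (⌊(X : ℝ) ^ (1 / (r : ℝ))⌋₊ + 1)).filter Nat.Prime,
    (1 - (((Finset.range p).filter
      (fun m : ℕ => (p : ℤ) ∣ a * (m : ℤ) ^ 2 + b * m + c)).card : ℝ) / p)

/-- All windows around `n` inside `(X, X + Y]` of length at least `K / V` have the density `V` up to
`ε`. -/
def AllWindows (a b c : ℤ) (r : ℕ) (K ε : ℝ) (X Y n : ℕ) : Prop :=
  ∀ u v : ℕ, X ≤ u → u < n → n ≤ v → v ≤ X + Y → K ≤ ((v : ℝ) - u) * V a b c r X →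
    |(N a b c r X u v : ℝ) - (v - u) * V a b c r X| ≤ ε * ((v - u) * V a b c r X)

open Pool.Agent.TH464.PO Pool.Agent.W123.RU.Poly Pool.Agent.W123.RP

open Classical in
/-- **The density of the almost prime values in all windows around almost all integers.** -/
theorem result (a b c : ℤ) (ha : 0 < a)
    (hg : ∀ p : ℕ, p.Prime → ¬ ((p : ℤ) ∣ a ∧ (p : ℤ) ∣ b ∧ (p : ℤ) ∣ c))
    (hpar : ¬ (Even (a + b) ∧ Even c)) (hD : ¬ IsSquare (b ^ 2 - 4 * a * c))
    (θ : ℝ) (hθ : 0 < θ) (ε : ℝ) (hε : 0 < ε) :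
    ∃ (K : ℝ) (r0 : ℕ), 0 < K ∧ ∀ r : ℕ, r0 ≤ r → ∀ᶠ X : ℕ in atTop, ∀ Y : ℕ, (X : ℝ) ^ θ ≤ Y → Y ≤ X →
      (((Finset.Ioc X (X + Y)).filter (fun n => ¬ AllWindows a b c r K ε X Y n)).card : ℝ) ≤ ε * Y := by
  obtain ⟨K, r0, hK, h0⟩ := exact_poly (qs a b c) (qs_sys a b c ha hg hpar hD) (qs_noTr a b c ha) θ hθ ε hε
  refine ⟨K, max r0 1, hK, ?_⟩
  intro r hr
  filter_upwards [h0 r ((le_max_left _ _).trans hr), sf_APq a b c r ((le_max_right _ _).trans hr)]
    with X hX hap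
  intro Y hXY hYX
  have hmain := (hX Y hXY hYX).1
  refine le_trans ?_ hmain
  have hsub : (Finset.Ioc X (X + Y)).filter (fun n => ¬ AllWindows a b c r K ε X Y n) ⊆
      (Finset.Ioc X (X + Y)).filter (fun n => ¬ Exact (Sf (Q (qs a b c)) ⌊(X : ℝ) ^ (1 / (r : ℝ))⌋₊)
        (Vq (Q (qs a b c)) ⌊(X : ℝ) ^ (1 / (r : ℝ))⌋₊) K ε X Y n) := by
    intro n hn
    rw [mem_filter] at hn ⊢
    refine ⟨hn.1, fun hex => hn.2 ?_⟩
    intro u v hu hun hnv hv hKV
    have hV : Vq (Q (qs a b c)) ⌊(X : ℝ) ^ (1 / (r : ℝ))⌋₊ = V a b c r X := qs_V a b c _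
    have h1 := hex u v hu hun hnv hv (by rw [hV]; exact hKV)
    rw [hV] at h1
    have hN : N a b c r X u v = Cc (Sf (Q (qs a b c)) ⌊(X : ℝ) ^ (1 / (r : ℝ))⌋₊) u v := by
      unfold N Cc
      congr 1
      apply Finset.filter_congr
      intro m hm
      rw [mem_Ioc] at hm
      exact (hap m (by omega)).symm
    rw [hN]
    exact h1
  exact_mod_cast card_le_card hsub

end Pool.Agent.Results.MP_a1177c_nt.ExactWindows
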