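import Pool.Agent.TH464.PW.Quad

set_option autoImplicit false

/-!
# Almost prime values of admissible quadratic polynomials: regular windows in short intervals

Let `f(m) = a m ^ 2 + b m + c` be admissible and let `0 < θ ≤ 1`. There are `r` and
`c₁, c₂, K, κ > 0` such that for every `δ > 0` there is `B` such that for all large `X` and ALL
`X ^ θ ≤ Y ≤ X` at least `κ Y` of the integers `n` of the short interval `(X, X + Y]` are regular:
every window around `n` of length `h` between `K log X` and `Y` contains between `c₁ h / log X` and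
`c₂ h / log X` integers `m` for which `f(m)` has at most `r` prime factors, all larger than
`X ^ (1 / r)`; and at all but at most `B` dyadic scales these integers `m` have constant density
around `n` up to `δ`.
-/

namespace Pool.Agent.Results.MP_a1177c_nt.RegularWindows

open Finset Filter

/-- `a m ^ 2 + b m + c` has at most `r` prime factors (with multiplicity), all larger than `z`. -/
def AlmostPrimeValue (a b c : ℤ) (r : ℕ) (z : ℝ) (m : ℕ) : Prop :=
  (a * (m : ℤ) ^ 2 + b * m + c).natAbs.primeFactorsList.length ≤ r ∧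
    ∀ p : ℕ, p.Prime → (p : ℤ) ∣ a * (m : ℤ) ^ 2 + b * m + c → z < (p : ℝ)

open Classical in
/-- The number of the `m` in `(u, v]` for which `a m ^ 2 + b m + c` has at most `r` prime factors,
all larger than `X ^ (1 / r)`. -/
noncomputable def N (a b c : ℤ) (r X u v : ℕ) : ℕ :=
  ((Finset.Ioc u v).filter (fun m => AlmostPrimeValue a b c r ((X : ℝ) ^ (1 / (r : ℝ))) m)).card

/-- `n` is regular: the windows around `n` of all lengths between `K log X` and `Y` have the right
order. -/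
def Regular (a b c : ℤ) (r : ℕ) (c₁ c₂ K : ℝ) (X Y n : ℕ) : Prop :=
  ∀ u v : ℕ, u ≤ n → n ≤ v → K * Real.log X ≤ (v : ℝ) - u → (v : ℝ) - u ≤ Y →
    c₁ * ((v : ℝ) - u) / Real.log X ≤ N a b c r X u v ∧
      (N a b c r X u v : ℝ) ≤ c₂ * ((v : ℝ) - u) / Real.log X

/-- Constant density, up to `δ`, on `[n - D, n + D]`. -/
def ConstantDensity (a b c : ℤ) (r : ℕ) (c₁ c₂ δ : ℝ) (X n D : ℕ) : Prop :=
  ∃ lam : ℝ, c₁ ≤ lam ∧ lam ≤ c₂ ∧ ∀ u v : ℕ, n ≤ u + D → u ≤ v → v ≤ n + D →
    |(N a b c r X u v : ℝ) - lam * ((v : ℝ) - u) / Real.log X| ≤ δ * D / Real.log X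

open Classical in
/-- The number of the dyadic scales `log X ≤ 2 ^ j ≤ Y` at which the density around `n` is not
constant up to `δ`. -/
noncomputable def badScales (a b c : ℤ) (r : ℕ) (c₁ c₂ δ : ℝ) (X Y n : ℕ) : ℕ :=
  ((range (Nat.log 2 Y + 1)).filter (fun j => Real.log X ≤ (2 : ℝ) ^ j ∧
    ¬ ConstantDensity a b c r c₁ c₂ δ X n (2 ^ j))).card

open Pool.Agent.TH464.PW

lemma almost_eq (a b c : ℤ) : Almost (fun _ : Fin 1 => quad a b c) = AlmostPrimeValue a b c := by
  funext r z m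
  unfold Almost AlmostPrimeValue
  simp only [quad_eval, forall_const]

lemma N_eq (a b c : ℤ) : Nc (fun _ : Fin 1 => quad a b c) = N a b c := by
  funext r X u v
  unfold Nc N
  rw [almost_eq]

lemma reg_eq (a b c : ℤ) : Reg (fun _ : Fin 1 => quad a b c) = Regular a b c := by
  funext r c₁ c₂ K X Y n
  unfold Reg Regular
  simp only [Fintype.card_fin, pow_one, N_eq]

lemma const_eq (a b c : ℤ) : ConstD (fun _ : Fin 1 => quad a b c) = ConstantDensity a b c := by
  funext r c₁ c₂ δ X n D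
  unfold ConstD ConstantDensity
  simp only [Fintype.card_fin, pow_one, N_eq]

lemma bad_eq (a b c : ℤ) : bad (fun _ : Fin 1 => quad a b c) = badScales a b c := by
  funext r c₁ c₂ δ X Y n
  have h : Real.log (X : ℝ) ^ (Fintype.card (Fin 1)) = Real.log (X : ℝ) := by
    rw [Fintype.card_fin, pow_one]
  unfold bad badScales
  rw [const_eq, h]

open Classical in
/-- **Regular windows in all short intervals, admissible quadratics.** -/
theorem result (a b c : ℤ) (ha : 0 < a)
    (hgcd : ∀ p : ℕ, p.Prime → ¬ ((p : ℤ) ∣ a ∧ (p : ℤ) ∣ b ∧ (p : ℤ) ∣ c))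
    (hD : ¬ IsSquare (b ^ 2 - 4 * a * c)) (hpar : ¬ (Even (a + b) ∧ Even c))
    (θ : ℝ) (hθ : 0 < θ) (hθ1 : θ ≤ 1) :
    ∃ (r : ℕ) (c₁ c₂ K κ : ℝ), 0 < c₁ ∧ 0 < c₂ ∧ 0 < K ∧ 0 < κ ∧ ∀ δ : ℝ, 0 < δ → ∃ B : ℕ,
      ∀ᶠ X : ℕ in atTop, ∀ Y : ℕ, (X : ℝ) ^ θ ≤ Y → Y ≤ X →
        κ * Y ≤ (((Finset.Ioc X (X + Y)).filter (fun n =>
          Regular a b c r c₁ c₂ K X Y n ∧ badScales a b c r c₁ c₂ δ X Y n ≤ B)).card : ℝ) := by
  have h := main_pos (fun _ : Fin 1 => quad a b c)
    ⟨fun _ => quad_irr a b c ha.ne' hgcd hD, fun _ => by rw [quad_deg a b c ha.ne']; norm_num,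
      fun _ => by rw [quad_lead a b c ha.ne']; exact ha, fun _ _ _ => Subsingleton.elim _ _,
      fun p hp => by
        obtain ⟨m, hm⟩ := quad_adm a b c hgcd hpar p hp
        exact ⟨m, fun _ => hm⟩⟩ θ hθ hθ1
  rw [reg_eq, bad_eq] at h
  exact h

end Pool.Agent.Results.MP_a1177c_nt.RegularWindows
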