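import Pool.Agent.TH423.DS.Main

set_option autoImplicit false

open Finset Filter Topology

namespace Pool.Agent.Results.MP_a1177c_nt.RoughDifferenceSets

/-- a nonzero integer with at most `R` prime factors (with multiplicity), all larger than `y` -/
def AlmostPrime (y : ℝ) (R : ℕ) (m : ℤ) : Prop :=
  m ≠ 0 ∧ (∀ p : ℕ, p.Prime → (p : ℤ) ∣ m → y < p) ∧ ArithmeticFunction.cardFactors m.natAbs ≤ R

/-- Let `f(n) = a n ^ 2 + b n + c` with integers `a > 0`, `b ^ 2 - 4 a c ≠ 0`, and let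
`g_1, ..., g_s` be integer polynomials such that for every prime `p` some integer `n` has
`p ∤ f(n) g_1(n) ... g_s(n)`. Let `ε > 0`.

(A) For every `r` there are `q ≥ 1`, `R`, `X₀` and `δ > 0` such that for all `X ≥ X₀`: there are `r`
distinct primes `p_i ≡ 1 (mod q)` with `X ^ δ < p_i ≤ X ^ (2 δ)`; and for every abelian group `Γ`,
every completely additive `F : ℕ → Γ`, every subset `S` of `Γ` and all such primes, if no translate
of `{∑_{i ∈ A} F(p_i) - ∑_{i ∉ A} F(p_i) : A ⊆ [r]}` is contained in `S - S`, then at least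
`X ^ (1 - ε)` integers `1 ≤ n ≤ X` have `f(n) > 0`, `f(n)` and all `g_j(n)` almost prime (nonzero, at
most `R` prime factors, all larger than `X ^ δ`) and `F(f(n)) ∉ S`.

(B) For every `k ≥ 1` there are `R`, `X₀` and `δ > 0` such that for all `X ≥ X₀` the set `V` of the
classes `v` modulo `k` for which at least `X ^ (1 - ε)` integers `1 ≤ n ≤ X` have `f(n) > 0`, `f(n)`
and all `g_j(n)` almost prime and `Ω(f(n)) ≡ v (mod k)`, is so large that `V - V` contains a
translate of the subgroup generated by `2`; in particular `V - V` is everything if `k` is odd. -/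
theorem result (a b c : ℤ) (ha : 0 < a) (hD : b ^ 2 - 4 * a * c ≠ 0) (s : ℕ)
    (g : Fin s → Polynomial ℤ)
    (hadm : ∀ p : ℕ, p.Prime → ∃ n : ℤ, ¬ (p : ℤ) ∣ a * n ^ 2 + b * n + c ∧
      ∀ j, ¬ (p : ℤ) ∣ (g j).eval n) (ε : ℝ) (hε : 0 < ε) :
    (∀ r : ℕ, ∃ q R X₀ : ℕ, ∃ δ : ℝ, 0 < q ∧ 0 < δ ∧ ∀ X : ℕ, X₀ ≤ X →
      (∃ P : Fin r → ℕ, Function.Injective P ∧ ∀ i, (P i).Prime ∧ (X : ℝ) ^ δ < P i ∧
        (P i : ℝ) ≤ (X : ℝ) ^ (2 * δ) ∧ (q : ℤ) ∣ (P i : ℤ) - 1) ∧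
      ∀ (Γ : Type) [AddCommGroup Γ] (F : ℕ → Γ),
      (∀ x y : ℕ, x ≠ 0 → y ≠ 0 → F (x * y) = F x + F y) → ∀ (S : Set Γ) (P : Fin r → ℕ),
      Function.Injective P → (∀ i, (P i).Prime ∧ (X : ℝ) ^ δ < P i ∧
        (P i : ℝ) ≤ (X : ℝ) ^ (2 * δ) ∧ (q : ℤ) ∣ (P i : ℤ) - 1) →
      (∀ h : Γ, ∃ A : Finset (Fin r), ∀ x ∈ S, ∀ y ∈ S,
        h + (∑ i ∈ A, F (P i) - ∑ i ∈ Aᶜ, F (P i)) ≠ x - y) →
      (X : ℝ) ^ (1 - ε) ≤ ({n : ℕ | 1 ≤ n ∧ n ≤ X ∧ 0 < a * (n : ℤ) ^ 2 + b * n + c ∧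
        AlmostPrime ((X : ℝ) ^ δ) R (a * (n : ℤ) ^ 2 + b * n + c) ∧
        (∀ j, AlmostPrime ((X : ℝ) ^ δ) R ((g j).eval (n : ℤ))) ∧
        F (a * (n : ℤ) ^ 2 + b * n + c).natAbs ∉ S}.ncard : ℝ)) ∧
    (∀ k : ℕ, 1 ≤ k → ∃ R X₀ : ℕ, ∃ δ : ℝ, 0 < δ ∧ ∀ X : ℕ, X₀ ≤ X →
      ∀ V : Set (ZMod k), V = {v : ZMod k | (X : ℝ) ^ (1 - ε) ≤
        ({n : ℕ | 1 ≤ n ∧ n ≤ X ∧ 0 < a * (n : ℤ) ^ 2 + b * n + c ∧
          AlmostPrime ((X : ℝ) ^ δ) R (a * (n : ℤ) ^ 2 + b * n + c) ∧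
          (∀ j, AlmostPrime ((X : ℝ) ^ δ) R ((g j).eval (n : ℤ))) ∧
          ((ArithmeticFunction.cardFactors (a * (n : ℤ) ^ 2 + b * n + c).natAbs : ℕ) : ZMod k)
            = v}.ncard : ℝ)} →
      (∃ h : ZMod k, ∀ d : ZMod k, ∃ x ∈ V, ∃ y ∈ V, x - y = h + 2 * d) ∧
      (Odd k → ∀ d : ZMod k, ∃ x ∈ V, ∃ y ∈ V, x - y = d)) := by
  classical
  refine ⟨fun r => Pool.Agent.TH423.DS.main a b c ha hD g hadm r ε hε, ?_⟩
  intro k hk
  have : NeZero k := ⟨by omega⟩
  obtain ⟨q, R, X₀, δ, hq, hδ, hmain⟩ :=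
    Pool.Agent.TH423.DS.main a b c ha hD g hadm k (ε / 2) (by positivity)
  have hn : Tendsto (fun X : ℕ => (X : ℝ)) atTop atTop := tendsto_natCast_atTop_atTop
  have hn1 : Tendsto (fun X : ℕ => (X : ℝ) ^ (ε / 2)) atTop atTop :=
    (tendsto_rpow_atTop (by positivity)).comp hn
  obtain ⟨X₁, hX₁⟩ := eventually_atTop.1 (hn1.eventually (eventually_gt_atTop (k : ℝ)))
  refine ⟨R, X₀ + X₁ + 1, δ, hδ, ?_⟩
  intro X hX V hV
  obtain ⟨⟨P, hPinj, hP⟩, hmainX⟩ := hmain X (by omega)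
  have hXk := hX₁ X (by omega)
  have hXp : (0 : ℝ) < X := by exact_mod_cast (by omega : 0 < X)
  have hfirst : ∃ h : ZMod k, ∀ d : ZMod k, ∃ x ∈ V, ∃ y ∈ V, x - y = h + 2 * d := by
    by_contra hcon
    push Not at hcon
    have h1 := hmainX (ZMod k) (fun n => ((ArithmeticFunction.cardFactors n : ℕ) : ZMod k))
      (by
        intro x y hx hy
        simp only [ArithmeticFunction.cardFactors_mul hx hy, Nat.cast_add]) V P hPinj hP (by
        intro h
        obtain ⟨d, hd⟩ := hcon h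
        have hdk : d.val ≤ (univ : Finset (Fin k)).card := by
          simpa using (ZMod.val_lt d).le
        obtain ⟨A, -, hA⟩ := Finset.exists_subset_card_eq hdk
        refine ⟨A, fun x hx y hy heq => hd x hx y hy ?_⟩
        rw [← heq]
        have e1 : ∀ B : Finset (Fin k), ∑ i ∈ B,
            ((ArithmeticFunction.cardFactors (P i) : ℕ) : ZMod k) = (B.card : ZMod k) := by
          intro B
          rw [Finset.sum_congr rfl fun i _ => by
            rw [ArithmeticFunction.cardFactors_apply_prime (hP i).1]]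
          simp
        simp only [e1]
        have e2 : ((Aᶜ.card : ℕ) : ZMod k) = - d := by
          rw [Finset.card_compl, Fintype.card_fin, hA,
            Nat.cast_sub (ZMod.val_lt d).le, CharP.cast_eq_zero, zero_sub, ZMod.natCast_val,
            ZMod.cast_id]
        rw [e2, hA, ZMod.natCast_val, ZMod.cast_id]
        ring)
    obtain ⟨B, hB⟩ : ∃ B : Finset ℕ, (B : Set ℕ) = {n : ℕ | 1 ≤ n ∧ n ≤ X ∧
        0 < a * (n : ℤ) ^ 2 + b * n + c ∧
        AlmostPrime ((X : ℝ) ^ δ) R (a * (n : ℤ) ^ 2 + b * n + c) ∧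
        (∀ j, AlmostPrime ((X : ℝ) ^ δ) R ((g j).eval (n : ℤ))) ∧
        ((ArithmeticFunction.cardFactors (a * (n : ℤ) ^ 2 + b * n + c).natAbs : ℕ) : ZMod k)
          ∉ V} :=
      Set.Finite.exists_finset_coe ((Set.finite_Iic X).subset fun n hn => hn.2.1)
    have h2 : (X : ℝ) ^ (1 - ε / 2) ≤ (B.card : ℝ) := by
      refine h1.trans (le_of_eq ?_)
      rw [← Set.ncard_coe_finset, hB]
      rfl
    have h3 : (B.card : ℝ) ≤ k * (X : ℝ) ^ (1 - ε) := by
      rw [Finset.card_eq_sum_card_fiberwise (f := fun n : ℕ =>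
        ((ArithmeticFunction.cardFactors (a * (n : ℤ) ^ 2 + b * n + c).natAbs : ℕ) : ZMod k))
        (t := univ) (fun _ _ => mem_univ _)]
      push_cast
      calc ∑ v : ZMod k, ((B.filter (fun n : ℕ => ((ArithmeticFunction.cardFactors
            (a * (n : ℤ) ^ 2 + b * n + c).natAbs : ℕ) : ZMod k) = v)).card : ℝ)
          ≤ ∑ v : ZMod k, (X : ℝ) ^ (1 - ε) := by
            apply Finset.sum_le_sum
            intro v _
            by_cases hv : v ∈ V
            · have : B.filter (fun n : ℕ => ((ArithmeticFunction.cardFactors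
                  (a * (n : ℤ) ^ 2 + b * n + c).natAbs : ℕ) : ZMod k) = v) = ∅ := by
                apply Finset.filter_false_of_mem
                intro n hn hnv
                have h4 : n ∈ (B : Set ℕ) := hn
                rw [hB] at h4
                exact h4.2.2.2.2.2 (hnv ▸ hv)
              rw [this]
              simp only [card_empty, Nat.cast_zero]
              positivity
            · have hv' := hv
              rw [hV] at hv'
              simp only [Set.mem_ofPred_eq, not_le] at hv'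
              refine le_trans ?_ hv'.le
              rw [← Set.ncard_coe_finset]
              have hsub : ((B.filter (fun n : ℕ => ((ArithmeticFunction.cardFactors
                  (a * (n : ℤ) ^ 2 + b * n + c).natAbs : ℕ) : ZMod k) = v) : Finset ℕ) : Set ℕ) ⊆
                {n : ℕ | 1 ≤ n ∧ n ≤ X ∧ 0 < a * (n : ℤ) ^ 2 + b * n + c ∧
                  AlmostPrime ((X : ℝ) ^ δ) R (a * (n : ℤ) ^ 2 + b * n + c) ∧
                  (∀ j, AlmostPrime ((X : ℝ) ^ δ) R ((g j).eval (n : ℤ))) ∧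
                  ((ArithmeticFunction.cardFactors (a * (n : ℤ) ^ 2 + b * n + c).natAbs : ℕ) :
                    ZMod k) = v} := by
                intro n hn
                rw [mem_coe, mem_filter] at hn
                have h4 : n ∈ (B : Set ℕ) := hn.1
                rw [hB] at h4
                exact ⟨h4.1, h4.2.1, h4.2.2.1, h4.2.2.2.1, h4.2.2.2.2.1, hn.2⟩
              exact_mod_cast Set.ncard_le_ncard hsub
                ((Set.finite_Iic X).subset fun n hn => hn.2.1)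
        _ = k * (X : ℝ) ^ (1 - ε) := by
            rw [Finset.sum_const, card_univ, ZMod.card, nsmul_eq_mul]
    have h5 : (X : ℝ) ^ (1 - ε / 2) = (X : ℝ) ^ (ε / 2) * (X : ℝ) ^ (1 - ε) := by
      rw [← Real.rpow_add hXp]; congr 1; ring
    have h6 : (k : ℝ) * (X : ℝ) ^ (1 - ε) < (X : ℝ) ^ (ε / 2) * (X : ℝ) ^ (1 - ε) :=
      mul_lt_mul_of_pos_right hXk (Real.rpow_pos_of_pos hXp _)
    linarith
  refine ⟨hfirst, fun hodd d => ?_⟩
  obtain ⟨h, hh⟩ := hfirst
  have h2 : IsUnit (2 : ZMod k) := by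
    have : IsUnit ((2 : ℕ) : ZMod k) := by
      rw [ZMod.isUnit_iff_coprime]
      exact (Nat.coprime_two_left.2 hodd)
    simpa using this
  obtain ⟨u, hu⟩ := h2
  obtain ⟨x, hx, y, hy, hxy⟩ := hh (↑u⁻¹ * (d - h))
  refine ⟨x, hx, y, hy, ?_⟩
  rw [hxy, ← hu, ← mul_assoc, Units.mul_inv, one_mul]
  ring

end Pool.Agent.Results.MP_a1177c_nt.RoughDifferenceSets
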