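import Pool.Agent.TH882.R9

/-!
Several quadratic polynomials which are prime at the same arguments, the arguments being at the same
time the places of an exact pattern of consecutive primes, for almost all vectors of constant terms.
-/

set_option autoImplicit false

open Finset Filter Topology

namespace Pool.Agent.Results.MP_a1177c_nt.SimultaneousQuadratics

/-- The value of the `j`-th quadratic polynomial `a j n ^ 2 + b j n + c j`. -/
def value {r : ℕ} (a : Fin r → ℕ) (b : Fin r → ℤ) (c : Fin r → ℕ) (j : Fin r) (n : ℤ) : ℤ :=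
  a j * n ^ 2 + b j * n + c j

/-- No local obstruction: for every prime `l` there is an integer `n` such that `l` divides no `n + h`,
`h ∈ A`, and no value of the quadratic polynomials at `n`. -/
def LocallyPossible {r : ℕ} (A : Finset ℕ) (a : Fin r → ℕ) (b : Fin r → ℤ) (c : Fin r → ℕ) : Prop :=
  ∀ l : ℕ, l.Prime → ∃ n : ℤ, (∀ h ∈ A, ¬ (l : ℤ) ∣ n + h) ∧ ∀ j, ¬ (l : ℤ) ∣ value a b c j n

/-- All `n + h`, `h ∈ H`, are prime, and no other integer between `n + min H` and `n + max H` is
prime. -/
def Consecutive (H : Finset ℕ) (n : ℕ) : Prop := (∀ h ∈ H, (n + h).Prime) ∧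
  ∀ w, (∃ h ∈ H, h ≤ w) → (∃ h ∈ H, w ≤ h) → (n + w).Prime → w ∈ H

/-- The number of the integers `1 ≤ n ≤ x` for which the `n + h`, `h ∈ H`, are consecutive primes and
all the quadratic polynomials have (positive) prime values at `n`. -/
noncomputable def count {r : ℕ} (H : Finset ℕ) (a : Fin r → ℕ) (b : Fin r → ℤ) (c : Fin r → ℕ)
    (x : ℕ) : ℕ :=
  {n : ℕ | (1 ≤ n ∧ n ≤ x) ∧ Consecutive H n ∧ ∀ j, (value a b c j n).toNat.Prime}.ncard

/-- The vectors `c` with all `1 ≤ c j ≤ κ x ^ 2` without local obstruction, but such that for no subset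
`H` of `A` with `m` elements the count is at least `x / (log x) ^ D`. -/
def exceptions {r : ℕ} (A : Finset ℕ) (a : Fin r → ℕ) (b : Fin r → ℤ) (m D κ x : ℕ) :
    Set (Fin r → ℕ) :=
  {c : Fin r → ℕ | (∀ j, 1 ≤ c j ∧ c j ≤ κ * x ^ 2) ∧ LocallyPossible A a b c ∧
    ¬ ∃ H ⊆ A, H.card = m ∧ (x : ℝ) / Real.log x ^ D ≤ (count H a b c x : ℝ)}

open Polynomial in
/-- **Simultaneous prime values of quadratic polynomials at patterns of consecutive primes.** For every
`m` there is `K` such that the following holds for every set `A` of at least `K` nonnegative integers,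
every `r`, all positive integers `a j` and all integers `b j`, `j < r`, with some `D`, for every `κ`.
For all vectors `c` of positive integers `c j ≤ κ x ^ 2` without local obstruction, with at most
`o(x ^ (2 r))` exceptions, there is a subset `H` of `A` with `m` elements such that for at least
`x / (log x) ^ D` integers `1 ≤ n ≤ x` the `m` numbers `n + h`, `h ∈ H`, are consecutive primes and
moreover all `r` numbers `a j n ^ 2 + b j n + c j` are primes. -/
theorem result (m : ℕ) : ∃ K : ℕ, ∀ (A : Finset ℕ), K ≤ A.card → ∀ (r : ℕ) (a : Fin r → ℕ)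
    (b : Fin r → ℤ), (∀ j, 1 ≤ a j) → ∃ D : ℕ, ∀ κ : ℕ,
    Tendsto (fun x : ℕ => ((exceptions A a b m D κ x).ncard : ℝ) / (x : ℝ) ^ (2 * r)) atTop (𝓝 0) := by
  classical
  obtain ⟨K, hK, hfin⟩ := Pool.Agent.TH882.RQ.finQ m
  refine ⟨4 * (m + 1) * K, ?_⟩
  intro A hA r a b ha
  obtain ⟨A', hA'1, hA'2⟩ := exists_subset_card_eq hA
  set U : Finset ℕ := A'.image (· + 1) with hU
  have hinj1 : Function.Injective (fun a : ℕ => a + 1) := fun a b hab => by simpa using hab
  have hUc : U.card = 4 * (m + 1) * K := by
    rw [hU, card_image_of_injective _ hinj1, hA'2]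
  set g : Fin r → Polynomial ℤ := fun j => C (a j : ℤ) * Polynomial.X ^ 2 +
    C (2 * (a j : ℤ) + b j) * Polynomial.X + C ((a j : ℤ) + b j) with hg
  have ha0 : ∀ j, (a j : ℤ) ≠ 0 := fun j => by
    have := ha j
    omega
  have hgd : ∀ j, (g j).natDegree = 2 := fun j => by
    rw [hg]
    exact natDegree_quadratic (ha0 j)
  have hge : ∀ j, ∀ (c : Fin r → ℕ) (n : ℤ), (c j : ℤ) + 1 * (g j).eval n = value a b c j (n + 1) := by
    intro j c n
    rw [hg]
    unfold value
    simp only [eval_add, eval_mul, eval_C, eval_pow, eval_X]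
    ring
  obtain ⟨D, h⟩ := hfin g (fun j => by rw [hgd j]; norm_num) (fun j => by
    rw [hg]
    simp only
    rw [leadingCoeff_quadratic (ha0 j)]
    have := ha j
    omega) U hUc (by
    intro u hu
    rw [hU, mem_image] at hu
    obtain ⟨a, -, rfl⟩ := hu
    omega)
  refine ⟨D, fun κ => ?_⟩
  have hsq : ∀ᶠ x : ℕ in atTop, ((exceptions A a b m D κ x).ncard : ℝ) / (x : ℝ) ^ (2 * r) ≤
      ((Pool.Agent.TH882.RQ.ExQ g U m D κ x).card : ℝ) / ∏ j, (x : ℝ) ^ (g j).natDegree := by
    filter_upwards [eventually_ge_atTop 1] with x hx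
    have e0 : ∏ j, (x : ℝ) ^ (g j).natDegree = (x : ℝ) ^ (2 * r) := by
      rw [prod_congr rfl fun j _ => by rw [hgd j]]
      rw [prod_const, card_univ, Fintype.card_fin, ← pow_mul]
    rw [e0]
    apply div_le_div_of_nonneg_right _ (by positivity)
    apply Nat.cast_le.2
    rw [← Set.ncard_coe_finset]
    apply Set.ncard_le_ncard _ (finite_toSet _)
    intro k hk
    unfold exceptions at hk
    rw [Set.mem_setOf_eq] at hk
    obtain ⟨h1, h2, h3⟩ := hk
    unfold Pool.Agent.TH882.RQ.ExQ
    rw [mem_coe, mem_filter, Fintype.mem_piFinset]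
    refine ⟨?_, ?_, ?_⟩
    · intro j
      rw [mem_Icc, hgd j]
      exact h1 j
    · intro l hl
      obtain ⟨n, hn, hn2⟩ := h2 l hl
      refine ⟨n - 1, ?_, ?_⟩
      · intro u hu
        rw [hU, mem_image] at hu
        obtain ⟨a, ha, rfl⟩ := hu
        have e1 := hn a (hA'1 ha)
        have e2 : n - 1 + ((a + 1 : ℕ) : ℤ) = n + a := by
          push_cast
          ring
        rw [e2]
        exact e1
      · intro j
        have e1 := hn2 j
        rw [hge j k (n - 1)]
        have e2 : n - 1 + 1 = n := by ring
        rw [e2]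
        exact e1
    · rintro ⟨H, hH1, hH2, hH3⟩
      apply h3
      set H' : Finset ℕ := A'.filter (fun a => a + 1 ∈ H) with hH'
      have hHH' : H = H'.image (· + 1) := by
        ext u
        rw [mem_image]
        constructor
        · intro hu
          have e1 := hH1 hu
          rw [hU, mem_image] at e1
          obtain ⟨a, ha, rfl⟩ := e1
          exact ⟨a, by rw [hH', mem_filter]; exact ⟨ha, hu⟩, rfl⟩
        · rintro ⟨a, ha, rfl⟩
          rw [hH', mem_filter] at ha
          exact ha.2
      refine ⟨H', (filter_subset _ _).trans hA'1, ?_, hH3.trans ?_⟩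
      · rw [← hH2, hHH', card_image_of_injective _ hinj1]
      · apply Nat.cast_le.2
        unfold count
        rw [← card_image_of_injective _ hinj1, ← Set.ncard_coe_finset]
        apply Set.ncard_le_ncard
        · intro n hn
          rw [mem_coe, mem_image] at hn
          obtain ⟨n', hn', rfl⟩ := hn
          unfold Pool.Agent.TH882.RQ.CQ at hn'
          rw [mem_filter, mem_Ico] at hn'
          obtain ⟨e1, ⟨e2, e3⟩, e4⟩ := hn'
          rw [Set.mem_setOf_eq]
          refine ⟨by omega, ⟨?_, ?_⟩, ?_⟩
          · intro a ha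
            have e5 := e2 (a + 1) (by rw [hHH']; exact mem_image_of_mem _ ha)
            have e6 : n' + 1 + a = n' + (a + 1) := by ring
            rw [e6]
            exact e5
          · rintro w ⟨a, ha, haw⟩ ⟨c, hc, hwc⟩ hp
            have e6 : n' + (w + 1) = n' + 1 + w := by ring
            have e5 := e3 (w + 1) ⟨a + 1, by rw [hHH']; exact mem_image_of_mem _ ha, by omega⟩
              ⟨c + 1, by rw [hHH']; exact mem_image_of_mem _ hc, by omega⟩ (by rw [e6]; exact hp)
            rw [hHH', mem_image] at e5
            obtain ⟨w', hw', he⟩ := e5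
            have : w' = w := by simpa using he
            rwa [← this]
          · intro j
            have e5 := e4 j
            rw [hge j k (n' : ℤ)] at e5
            push_cast
            exact e5
        · apply (finite_toSet (Icc 1 x)).subset
          intro n hn
          rw [Set.mem_setOf_eq] at hn
          rw [mem_coe, mem_Icc]
          exact hn.1
  exact tendsto_of_tendsto_of_tendsto_of_le_of_le' tendsto_const_nhds (h κ)
    (Eventually.of_forall fun x => by positivity) hsq

end Pool.Agent.Results.MP_a1177c_nt.SimultaneousQuadratics
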